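import Mathlib
import Pool.Agent.HuaOne84.Defs

/-!
Definitions used in the statements about pairs of subspaces of a Hua system.
-/

set_option autoImplicit false

namespace Pool.Agent.HuaPair25

/-- `P` is generated by the inverses `j_e(y)` of the elements `y` outside `R`, and `R` is generated
by the inverses of the elements outside `P`. -/
def IsClosedPair {A : Type} [AddCommGroup A] (j : A → Option A → Option A) (e : A)
    (P R : AddSubgroup A) : Prop :=
  P = AddSubgroup.closure {z | ∃ y, y ∉ R ∧ j e (some y) = some z} ∧
  R = AddSubgroup.closure {z | ∃ y, y ∉ P ∧ j e (some y) = some z}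

/-- `P` is closed under division by nonzero integers. -/
def IsPure {A : Type} [AddCommGroup A] (P : AddSubgroup A) : Prop :=
  ∀ (n : ℕ) (a : A), n ≠ 0 → n • a ∈ P → a ∈ P

/-- The element `a` is algebraic over the rational numbers, relative to the unit `e`: there is a
field `L`, embedded in the Hua system with `1` going to `e`, such that `a` is the image of an
algebraic element of `L`. -/
def IsAlgOver {A : Type} [AddCommGroup A] (j : A → Option A → Option A) (e a : A) : Prop :=
  ∃ (L : Type) (_ : Field L) (φ : L →+ A), Function.Injective φ ∧ φ 1 = e ∧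
    Pool.Agent.HuaOne84.IsFieldPart j φ ∧ ∃ u : L, φ u = a ∧ ∃ p : Polynomial ℤ, p ≠ 0 ∧
      Polynomial.aeval u p = 0

end Pool.Agent.HuaPair25
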