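import Mathlib

/-!
Functions on the rational line with vanishing higher differences are polynomials; the parallelogram
law for such functions with a reflection property.
-/

set_option autoImplicit false

namespace Pool.Agent.HuaPair25

open Polynomial

/-- Newton's forward difference polynomial. -/
noncomputable def newt (φ : ℚ → ℚ) (n : ℕ) (y h : ℚ) : ℚ[X] :=
  ∑ k ∈ Finset.range n, C ((fwdDiff h)^[k] φ y / (k.factorial : ℚ)) * descPochhammer ℚ k

theorem newt_eval (φ : ℚ → ℚ) (n : ℕ) (h : ℚ) (hφ : (fwdDiff h)^[n] φ = 0) (y : ℚ) (N : ℕ) :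
    (newt φ n y h).eval (N : ℚ) = φ (y + N • h) := by
  have hz : ∀ k, n ≤ k → (fwdDiff h)^[k] φ y = 0 := by
    intro k hk
    obtain ⟨m, rfl⟩ := Nat.exists_eq_add_of_le hk
    rw [add_comm, Function.iterate_add_apply, hφ]
    have : ∀ m : ℕ, (fwdDiff h)^[m] (0 : ℚ → ℚ) = 0 := by
      intro m
      induction m with
      | zero => rfl
      | succ m ih =>
        rw [Function.iterate_succ_apply]
        have : fwdDiff h (0 : ℚ → ℚ) = 0 := by
          ext x; simp [fwdDiff]
        rw [this, ih]
    rw [this]; rfl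
  rw [shift_eq_sum_fwdDiff_iter h φ N y, newt, Polynomial.eval_finsetSum]
  have h1 : ∀ k, (C ((fwdDiff h)^[k] φ y / (k.factorial : ℚ)) * descPochhammer ℚ k).eval (N : ℚ) =
      N.choose k • (fwdDiff h)^[k] φ y := by
    intro k
    rw [Polynomial.eval_mul, Polynomial.eval_C, nsmul_eq_mul,
      Nat.cast_choose_eq_descPochhammer_div ℚ N k]
    ring
  rw [Finset.sum_congr rfl (fun k _ => h1 k)]
  rcases le_total n (N + 1) with hn | hn
  · refine Finset.sum_subset (Finset.range_mono hn) ?_
    intro k _ hk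
    rw [hz k (by simpa using hk), smul_zero]
  · symm
    refine Finset.sum_subset (Finset.range_mono hn) ?_
    intro k _ hk
    rw [Nat.choose_eq_zero_of_lt (by simpa using hk), zero_smul]

/-- A function on the rational line whose `n`-th differences vanish is a polynomial. -/
theorem poly_of_diff (φ : ℚ → ℚ) (n : ℕ) (hφ : ∀ h : ℚ, (fwdDiff h)^[n] φ = 0) :
    ∃ p : ℚ[X], ∀ s : ℚ, φ s = p.eval s := by
  refine ⟨newt φ n 0 1, ?_⟩
  intro s
  have hN : ∀ t : ℕ, (newt φ n 0 1).eval (t : ℚ) = φ t := by
    intro t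
    rw [newt_eval φ n 1 (hφ 1)]
    simp
  -- s = -M + K / m
  set M : ℕ := s.num.natAbs with hM
  set m : ℕ := s.den with hm
  have hm0 : (m : ℚ) ≠ 0 := by exact_mod_cast s.den_ne_zero
  have hs : s * m = s.num := Rat.mul_den_eq_num s
  have hge : (0 : ℤ) ≤ (M : ℤ) * m + s.num := by
    have h1 : (1 : ℤ) ≤ m := by exact_mod_cast s.den_pos
    have h2 : (M : ℤ) = |s.num| := Int.natCast_natAbs s.num
    have h3 : -s.num ≤ |s.num| := neg_le_abs s.num
    have h4 : 0 ≤ |s.num| := abs_nonneg _
    rw [h2]
    nlinarith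
  obtain ⟨K, hK⟩ := Int.eq_ofNat_of_zero_le hge
  have hKq : (M : ℚ) * m + s * m = K := by
    rw [hs]
    exact_mod_cast hK
  let P' := newt φ n (-(M : ℚ)) (1 / m)
  have hP' : ∀ N : ℕ, P'.eval (N : ℚ) = φ (-(M : ℚ) + N • (1 / (m : ℚ))) := fun N =>
    newt_eval φ n _ (hφ _) _ N
  have hcomp : P'.comp (C (m : ℚ) * (X + C (M : ℚ))) = newt φ n 0 1 := by
    apply Polynomial.eq_of_infinite_eval_eq
    apply Set.Infinite.mono (s := Set.range (fun t : ℕ => (t : ℚ)))
    · rintro _ ⟨t, rfl⟩
      show Polynomial.eval (t : ℚ) _ = Polynomial.eval (t : ℚ) _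
      rw [Polynomial.eval_comp, hN]
      simp only [Polynomial.eval_mul, Polynomial.eval_add, Polynomial.eval_C, Polynomial.eval_X]
      have h1 : (m : ℚ) * (t + M) = ((m * (t + M) : ℕ) : ℚ) := by push_cast; ring
      rw [h1, hP']
      congr 1
      rw [nsmul_eq_mul]
      push_cast
      field_simp
      ring
    · exact Set.infinite_range_of_injective Nat.cast_injective
  rw [← hcomp, Polynomial.eval_comp]
  simp only [Polynomial.eval_mul, Polynomial.eval_add, Polynomial.eval_C, Polynomial.eval_X]
  have h1 : (m : ℚ) * (s + M) = (K : ℚ) := by rw [← hKq]; ring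
  rw [h1, hP']
  congr 1
  rw [nsmul_eq_mul, ← hKq]
  field_simp
  ring

/-- Two polynomials related by `p(s) = s² q(1/s)` satisfy the parallelogram law. -/
theorem poly_reflect (p q : ℚ[X]) (h : ∀ s : ℚ, s ≠ 0 → p.eval s = s ^ 2 * q.eval s⁻¹) :
    p.eval 1 + p.eval (-1) = 2 * p.eval 0 + 2 * q.eval 0 := by
  set N := q.natDegree with hN
  have h1 : X ^ N * p = X ^ 2 * q.reflect N := by
    apply Polynomial.eq_of_infinite_eval_eq
    apply Set.Infinite.mono (s := {x : ℚ | x ≠ 0})
    · intro s hs
      have hs' : s ≠ 0 := hs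
      show Polynomial.eval s _ = Polynomial.eval s _
      rw [Polynomial.eval_mul, Polynomial.eval_mul, Polynomial.eval_pow, Polynomial.eval_pow,
        Polynomial.eval_X, h s hs']
      let _ : Invertible s⁻¹ := invertibleOfNonzero (inv_ne_zero hs')
      have h3 : Polynomial.eval s (q.reflect N) = s ^ N * Polynomial.eval s⁻¹ q := by
        have h4 := Polynomial.eval₂_reflect_mul_pow (RingHom.id ℚ) s⁻¹ N q le_rfl
        rw [invOf_eq_inv, inv_inv] at h4
        have h5 : Polynomial.eval₂ (RingHom.id ℚ) s (q.reflect N) * s⁻¹ ^ N =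
          Polynomial.eval₂ (RingHom.id ℚ) s⁻¹ q := h4
        rw [Polynomial.eval₂_id, Polynomial.eval₂_id] at h5
        rw [← h5, inv_pow]
        field_simp
      rw [h3]
      ring
    · exact (Set.finite_singleton (0 : ℚ)).infinite_compl.mono (by intro x hx; simpa using hx)
  have hcoef : ∀ k, p.coeff k = if k = 0 then p.coeff 0 else if k = 1 then p.coeff 1 else
      if k = 2 then q.coeff 0 else 0 := by
    intro k
    split_ifs with a b c
    · rw [a]
    · rw [b]
    · subst c
      have := congrArg (fun r => Polynomial.coeff r (2 + N)) h1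
      simp only [Polynomial.coeff_X_pow_mul] at this
      rw [add_comm 2 N, Polynomial.coeff_X_pow_mul', Polynomial.coeff_reflect] at this
      rw [if_pos (by omega)] at this
      rw [show N + 2 - 2 = N by omega, Polynomial.revAt_le le_rfl, Nat.sub_self] at this
      rw [← this]
    · have := congrArg (fun r => Polynomial.coeff r (k + N)) h1
      simp only [Polynomial.coeff_X_pow_mul] at this
      rw [this, Polynomial.coeff_X_pow_mul', if_pos (by omega), Polynomial.coeff_reflect,
        Polynomial.revAt_eq_self_of_lt (by omega)]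
      apply Polynomial.coeff_eq_zero_of_natDegree_lt
      omega
  have hp : p = C (p.coeff 0) + C (p.coeff 1) * X + C (q.coeff 0) * X ^ 2 := by
    ext k
    rw [hcoef k]
    simp only [Polynomial.coeff_add, Polynomial.coeff_C, Polynomial.coeff_C_mul,
      Polynomial.coeff_X, Polynomial.coeff_X_pow]
    rcases k with _ | _ | _ | k <;> simp
  rw [hp]
  simp only [Polynomial.eval_add, Polynomial.eval_mul, Polynomial.eval_C, Polynomial.eval_X,
    Polynomial.eval_pow]
  rw [Polynomial.coeff_zero_eq_eval_zero q]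
  ring

end Pool.Agent.HuaPair25
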