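import Mathlib

/-!
The group ring of an abelian group acting on functions by translations.
-/

set_option autoImplicit false

namespace Pool.Agent.HuaPair25

variable {A : Type*} [AddCommGroup A]

/-- Translations of functions. -/
def trans : Multiplicative A →* Module.End ℤ (A → A) where
  toFun a :=
    { toFun := fun F p => F (p + a.toAdd)
      map_add' := fun F G => rfl
      map_smul' := fun n F => rfl }
  map_one' := by
    ext F p
    simp
  map_mul' a b := by
    ext F p
    simp only [Module.End.mul_apply, LinearMap.coe_mk, AddHom.coe_mk, toAdd_mul]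
    rw [add_assoc]

/-- The group ring acting on functions. -/
noncomputable def act : AddMonoidAlgebra ℤ A →ₐ[ℤ] Module.End ℤ (A → A) :=
  AddMonoidAlgebra.lift ℤ (Module.End ℤ (A → A)) A trans

/-- The element `[a] - 1` of the group ring. -/
noncomputable def tt (a : A) : AddMonoidAlgebra ℤ A := AddMonoidAlgebra.single a 1 - 1

theorem act_tt (a : A) (F : A → A) : act (tt a) F = fwdDiff a F := by
  ext p
  unfold act tt
  rw [map_sub, map_one, AddMonoidAlgebra.lift_single, one_smul]
  rfl

theorem act_tt_pow (a : A) (n : ℕ) (F : A → A) : act (tt a ^ n) F = (fwdDiff a)^[n] F := by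
  induction n with
  | zero => simp
  | succ n ih =>
    rw [pow_succ', map_mul, Module.End.mul_apply, ih, act_tt, Function.iterate_succ_apply']

theorem tt_add (a b : A) : tt (a + b) = AddMonoidAlgebra.single a 1 * tt b + tt a := by
  unfold tt
  rw [mul_sub, mul_one, AddMonoidAlgebra.single_mul_single, one_mul]
  abel

theorem tt_zero : tt (0 : A) = 0 := by
  unfold tt
  rw [← AddMonoidAlgebra.one_def, sub_self]

theorem tt_neg (a : A) : tt (-a) = - (AddMonoidAlgebra.single (-a) 1 * tt a) := by
  have h := tt_add (-a) a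
  rw [neg_add_cancel, tt_zero] at h
  exact (neg_eq_of_add_eq_zero_right h.symm).symm

/-- The annihilator of a function in the group ring. -/
noncomputable def ann (F : A → A) : Ideal (AddMonoidAlgebra ℤ A) where
  carrier := {s | act s F = 0}
  add_mem' := by
    intro s t hs ht
    show act (s + t) F = 0
    rw [map_add, LinearMap.add_apply, show act s F = 0 from hs, show act t F = 0 from ht,
      add_zero]
  zero_mem' := by
    show act (0 : AddMonoidAlgebra ℤ A) F = 0
    rw [map_zero]; rfl
  smul_mem' := by
    intro r s hs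
    show act (r * s) F = 0
    rw [map_mul, Module.End.mul_apply, show act s F = 0 from hs, map_zero]

theorem mem_ann {F : A → A} {s : AddMonoidAlgebra ℤ A} : s ∈ ann F ↔ act s F = 0 := Iff.rfl

/-- The subgroup of periods modulo a prime. -/
def per (p : Ideal (AddMonoidAlgebra ℤ A)) : AddSubgroup A where
  carrier := {a | tt a ∈ p}
  add_mem' := by
    intro a b ha hb
    show tt (a + b) ∈ p
    rw [tt_add]
    exact p.add_mem (p.mul_mem_left _ hb) ha
  zero_mem' := by
    show tt 0 ∈ p
    rw [tt_zero]; exact p.zero_mem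
  neg_mem' := by
    intro a ha
    show tt (-a) ∈ p
    rw [tt_neg]
    exact p.neg_mem (p.mul_mem_left _ ha)

theorem mem_per {p : Ideal (AddMonoidAlgebra ℤ A)} {a : A} : a ∈ per p ↔ tt a ∈ p := Iff.rfl

/-- The subgroup of the points `y` with `ann (f y)` not contained in the prime `p`. -/
def supp (f : A →+ (A → A)) (p : Ideal (AddMonoidAlgebra ℤ A)) [hp : p.IsPrime] :
    AddSubgroup A where
  carrier := {y | ∃ s, s ∈ ann (f y) ∧ s ∉ p}
  add_mem' := by
    rintro y z ⟨s, hs, hsp⟩ ⟨t, ht, htp⟩
    refine ⟨s * t, ?_, fun h => (hp.mem_or_mem h).elim hsp htp⟩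
    rw [mem_ann, map_add, map_add]
    have h1 : act (s * t) (f z) = 0 := (ann (f z)).mul_mem_left s ht
    have h2 : act (s * t) (f y) = 0 := (ann (f y)).mul_mem_right t hs
    rw [h1, h2, add_zero]
  zero_mem' := by
    refine ⟨1, ?_, fun h => hp.ne_top ((Ideal.eq_top_iff_one p).mpr h)⟩
    rw [mem_ann, map_zero, map_zero]
  neg_mem' := by
    rintro y ⟨s, hs, hsp⟩
    refine ⟨s, ?_, hsp⟩
    rw [mem_ann, map_neg, map_neg, mem_ann.mp hs, neg_zero]

end Pool.Agent.HuaPair25
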