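import Mathlib
import Pool.Agent.HuaOne84.Rat
import Pool.Agent.HuaPair25.Poly
import Pool.Agent.HuaPair25.Ring

/-!
Pairs of subspaces attached to a Hua system which is not quadratic.
-/

set_option autoImplicit false

namespace Pool.Agent.HuaPair25

open Pool.Agent.HuaTop84 Pool.Agent.HuaVal Pool.Agent.HuaOne84

variable {A : Type} [AddCommGroup A]

/-- The evaluation formula. -/
def E1 (H : HS A) : Prop := ∀ u y : A, y ≠ 0 → H.U (u + H.inv y) y = H.U u y + (u + u + H.inv y)

theorem E1_toHS {J : A → A → A} (hJ : JSys J) {e : A} (he : e ≠ 0) : E1 (toHS hJ e he) :=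
  fun u y hy => H_add_i hJ he u y hy

/-- The vector field `u ↦ U_u y`, additive in `y`. -/
def fld (H : HS A) : A →+ (A → A) where
  toFun y := fun u => H.U u y
  map_zero' := by
    funext u
    exact map_zero _
  map_add' y z := by
    funext u
    exact map_add _ _ _

theorem fld_apply (H : HS A) (y u : A) : fld H y u = H.U u y := rfl

theorem fwdDiff_fld {H : HS A} (hE : E1 H) {y : A} (hy : y ≠ 0) :
    fwdDiff (H.inv y) (fld H y) = fun u => u + u + H.inv y := by
  funext u
  simp only [fwdDiff, fld_apply]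
  rw [hE u y hy]
  abel

theorem kill {H : HS A} (hE : E1 H) {y : A} (hy : y ≠ 0) (a : A) :
    tt a ^ 2 * tt (H.inv y) ∈ ann (fld H y) := by
  rw [mem_ann, map_mul, Module.End.mul_apply, act_tt, fwdDiff_fld hE hy, pow_two, map_mul,
    Module.End.mul_apply, act_tt, act_tt]
  funext u
  simp only [fwdDiff]
  rw [Pi.zero_apply]
  abel

variable [Module ℚ A]

theorem ann_fld_smul {H : HS A} (S : H.Scal ℚ) (y : A) {t : ℚ} (ht : t ≠ 0) :
    ann (fld H (t • y)) = ann (fld H y) := by
  have key : ∀ (y : A) (t : ℚ) (s : AddMonoidAlgebra ℤ A),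
      act s (fld H (t • y)) = fun u => t • act s (fld H y) u := by
    intro y t s
    induction s using AddMonoidAlgebra.induction_linear with
    | zero =>
      funext u
      simp
    | add f g hf hg =>
      rw [map_add, LinearMap.add_apply, hf, hg]
      funext u
      simp only [Pi.add_apply, LinearMap.add_apply, smul_add]
    | single a n =>
      unfold act
      rw [AddMonoidAlgebra.lift_single]
      funext u
      show n • fld H (t • y) (u + a) = t • (n • fld H y (u + a))
      rw [fld_apply, fld_apply, S.U_smul, smul_comm]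
  ext s
  rw [mem_ann, mem_ann]
  constructor
  · intro h
    have h1 := key (t • y) t⁻¹ s
    rw [smul_smul, inv_mul_cancel₀ ht, one_smul] at h1
    rw [h1, h]
    funext u
    simp
  · intro h
    rw [key, h]
    funext u
    simp

/-- **Non-nilpotent directions give pairs.** -/
theorem exists_pair {H : HS A} (hE : E1 H) (S : H.Scal ℚ) (a x : A)
    (hn : ∀ n : ℕ, (fwdDiff a)^[n] (fld H x) ≠ 0) :
    ∃ P R : Submodule ℚ A, a ∉ P ∧ x ∉ R ∧ ∀ v, v ∉ R → H.inv v ∈ P := by
  have hdis : Disjoint (ann (fld H x) : Set (AddMonoidAlgebra ℤ A))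
      (Submonoid.powers (tt a) : Set (AddMonoidAlgebra ℤ A)) := by
    rw [Set.disjoint_left]
    rintro s hs ⟨n, rfl⟩
    apply hn n
    rw [← act_tt_pow]
    exact hs
  obtain ⟨p, hp, hle, hd⟩ := Ideal.exists_le_prime_disjoint _ _ hdis
  have hap : tt a ∉ p := fun h => Set.disjoint_left.mp hd h ⟨1, pow_one _⟩
  let P : Submodule ℚ A :=
    { carrier := {b | ∀ q : ℚ, q • b ∈ per p}
      add_mem' := by
        intro b c hb hc q
        rw [smul_add]
        exact (per p).add_mem (hb q) (hc q)
      zero_mem' := by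
        intro q
        rw [smul_zero]
        exact (per p).zero_mem
      smul_mem' := by
        intro r b hb q
        rw [smul_smul]
        exact hb _ }
  have hsm : ∀ (t : ℚ) (y : A), t ≠ 0 → y ∈ supp (fld H) p → t • y ∈ supp (fld H) p := by
    rintro t y ht ⟨s, hs, hsp⟩
    exact ⟨s, by rwa [ann_fld_smul S y ht], hsp⟩
  let R : Submodule ℚ A :=
    { carrier := supp (fld H) p
      add_mem' := fun {b c} hb hc => (supp (fld H) p).add_mem hb hc
      zero_mem' := (supp (fld H) p).zero_mem
      smul_mem' := by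
        intro r b hb
        by_cases hr : r = 0
        · subst hr
          rw [zero_smul]
          exact (supp (fld H) p).zero_mem
        · exact hsm r b hr hb }
  have hmain : ∀ v, v ∉ supp (fld H) p → H.inv v ∈ per p := by
    intro v hv
    have hv0 : v ≠ 0 := fun h => hv (h ▸ (supp (fld H) p).zero_mem)
    by_contra hne
    apply hv
    refine ⟨tt a ^ 2 * tt (H.inv v), kill hE hv0 a, ?_⟩
    intro h
    rcases hp.mem_or_mem h with h1 | h1
    · exact hap (hp.mem_of_pow_mem 2 h1)
    · exact hne h1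
  refine ⟨P, R, ?_, ?_, ?_⟩
  · intro h
    have := h 1
    rw [one_smul] at this
    exact hap this
  · rintro ⟨s, hs, hsp⟩
    exact hsp (hle hs)
  · intro v hv q
    by_cases hq : q = 0
    · subst hq
      rw [zero_smul]
      exact (per p).zero_mem
    · have h1 : q⁻¹ • v ∉ supp (fld H) p := by
        intro h
        apply hv
        have h2 := hsm q _ hq h
        rwa [smul_smul, mul_inv_cancel₀ hq, one_smul] at h2
      have h3 := hmain _ h1
      rwa [S.inv_smul _ _ (inv_ne_zero hq), inv_inv] at h3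

/-- The parallelogram law at `(u, a)` for the argument `x`. -/
theorem parallel {H : HS A} (S : H.Scal ℚ) {a u x : A} (ha : a ≠ 0) (hu : u ≠ 0) {n : ℕ}
    (hn : (fwdDiff a)^[n] (fld H x) = 0) :
    H.U (u + a) x + H.U (u - a) x = (2 : ℚ) • H.U u x + (2 : ℚ) • H.U a x := by
  -- differences of the functions `s ↦ λ (U_{w + s a} x)`
  have hpoly : ∀ (w : A) (l : A →ₗ[ℚ] ℚ), ∃ p : Polynomial ℚ, ∀ s : ℚ,
      l (H.U (w + s • a) x) = p.eval s := by
    intro w l
    apply poly_of_diff (fun s => l (H.U (w + s • a) x)) (n + 1)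
    intro h
    by_cases hh : h = 0
    · subst hh
      rw [Function.iterate_succ_apply']
      funext s
      simp [fwdDiff]
    rw [Function.iterate_succ_apply']
    have h0 : (fwdDiff h)^[n] (fun s => l (H.U (w + s • a) x)) = 0 := by
      funext s
      rw [fwdDiff_iter_eq_sum_shift]
      have h1 : ∀ k : ℕ, l (H.U (w + (s + k • h) • a) x) =
          (h * h) * l (fld H x (h⁻¹ • (w + s • a) + k • a)) := by
        intro k
        rw [fld_apply]
        have h2 : w + (s + k • h) • a = h • (h⁻¹ • (w + s • a) + k • a) := by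
          rw [smul_add, smul_smul, mul_inv_cancel₀ hh, one_smul, add_smul, ← add_assoc,
            nsmul_eq_mul, mul_comm, mul_smul, Nat.cast_smul_eq_nsmul]
        rw [h2, S.U_smul_left, map_smul, smul_eq_mul]
      simp only [h1]
      have h3 := congrFun hn (h⁻¹ • (w + s • a))
      rw [fwdDiff_iter_eq_sum_shift] at h3
      have h4 := congrArg (fun z => (h * h) * l z) h3
      simp only [map_sum, map_zsmul, Pi.zero_apply, map_zero, mul_zero, Finset.mul_sum] at h4
      rw [Pi.zero_apply, ← h4]
      refine Finset.sum_congr rfl fun k _ => ?_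
      rw [mul_smul_comm]
    rw [h0]
    funext s
    simp [fwdDiff]
  have hia := H.inv_ne a ha
  have hiu := H.inv_ne u hu
  -- the reflection
  have href : ∀ s : ℚ, s ≠ 0 → H.U (u + s • a) x =
      (s ^ 2) • H.U u (H.U (H.inv a) (H.U (H.U a (H.inv u) + s⁻¹ • a) x)) := by
    intro s hs
    have hsa : s • a ≠ 0 := smul_ne_zero hs ha
    have h1 : H.U (H.U a (H.inv u) + s⁻¹ • a) x =
        H.U a (H.U (H.inv u + s⁻¹ • H.inv a) (H.U a x)) := by
      rw [← H.U_U, map_add, S.U_smul, H.U_self]
    rw [h1, H.U_inv_left a _ ha]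
    by_cases h0 : u + s • a = 0
    · have h2 : H.inv u + s⁻¹ • H.inv a = 0 := by
        rw [eq_neg_of_add_eq_zero_left h0, H.inv_neg, S.inv_smul _ _ hs]
        abel
      rw [h0, h2, H.U_zero]
      simp
    · rw [H.sum u (s • a) x hu hsa h0, S.U_smul_left, S.inv_smul _ _ hs, S.U_smul, S.U_smul,
        pow_two]
  -- conclude by linear functionals
  apply sub_eq_zero.mp
  rw [← Module.forall_dual_apply_eq_zero_iff ℚ]
  intro l
  obtain ⟨p, hp⟩ := hpoly u l
  let l' : A →ₗ[ℚ] ℚ := l ∘ₗ
    { toFun := fun z => H.U u (H.U (H.inv a) z)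
      map_add' := fun z w => by rw [map_add, map_add]
      map_smul' := fun q z => by rw [S.U_smul, S.U_smul]; rfl }
  obtain ⟨q, hq⟩ := hpoly (H.U a (H.inv u)) l'
  have h := poly_reflect p q (by
    intro s hs
    rw [← hp, ← hq, href s hs, map_smul, smul_eq_mul]
    rfl)
  rw [← hp, ← hp, ← hp, ← hq] at h
  have hlq : l' (H.U (H.U a (H.inv u) + (0 : ℚ) • a) x) = l (H.U a x) := by
    show l (H.U u (H.U (H.inv a) (H.U (H.U a (H.inv u) + (0 : ℚ) • a) x))) = _
    rw [zero_smul, add_zero, H.U_U, H.U_inv_left a _ ha, H.U_inv_right u _ hu]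
  rw [hlq, one_smul, zero_smul, add_zero, neg_smul, one_smul, ← sub_eq_add_neg] at h
  simp only [map_sub, map_add, map_smul, smul_eq_mul]
  linarith

end Pool.Agent.HuaPair25
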