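import Mathlib
import Pool.Agent.HuaVal.Main
import Pool.Agent.HuaPair25.Pair
import Pool.Agent.HuaPair25.Defs

/-!
Closed pairs and the reduction of the Jordan property.
-/

set_option autoImplicit false

namespace Pool.Agent.HuaPair25

open Pool.Agent.HuaTop84 Pool.Agent.HuaVal Pool.Agent.HuaOne84

section Good

variable {A : Type} [AddCommGroup A]

/-- The arguments for which the parallelogram law holds. -/
def good (H : HS A) : AddSubgroup A where
  carrier := {x | ∀ u a, H.U (u + a) x + H.U (u - a) x = H.U u x + H.U u x + (H.U a x + H.U a x)}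
  add_mem' := by
    intro x y hx hy u a
    simp only [map_add]
    rw [show H.U (u + a) x + H.U (u + a) y + (H.U (u - a) x + H.U (u - a) y) =
      (H.U (u + a) x + H.U (u - a) x) + (H.U (u + a) y + H.U (u - a) y) by abel, hx u a, hy u a]
    abel
  zero_mem' := by
    intro u a
    simp
  neg_mem' := by
    intro x hx u a
    simp only [map_neg]
    rw [show -H.U (u + a) x + -H.U (u - a) x = -(H.U (u + a) x + H.U (u - a) x) by abel, hx u a]
    abel

theorem good_U {H : HS A} {x h : A} (hx : x ∈ good H) : H.U h x ∈ good H := by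
  by_cases hh : h = 0
  · subst hh
    rw [H.U_zero]
    exact (good H).zero_mem
  intro u a
  have key : ∀ w, H.U w (H.U h x) = H.U (H.inv h) (H.U (H.U h w) x) := by
    intro w
    rw [H.U_U, H.U_inv_left h _ hh]
  rw [key, key, key, key, map_add, map_sub, ← map_add (H.U (H.inv h)),
    ← map_add (H.U (H.inv h)), ← map_add (H.U (H.inv h)), ← map_add (H.U (H.inv h))]
  congr 1
  exact hx _ _

theorem good_top {H : HS A} (hE : E1 H) (h2 : ∀ a : A, ∃ b : A, b + b = a) {x : A} (hx0 : x ≠ 0)
    (hx : x ∈ good H) (z : A) : z ∈ good H := by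
  obtain ⟨u, hu⟩ := h2 z
  have h1 : H.U (u + H.inv x) x ∈ good H := good_U hx
  rw [hE u x hx0] at h1
  have h3 : H.inv x ∈ good H := by
    have h4 := good_U (h := H.inv x) hx
    have h5 := H.U_self (H.inv x)
    rw [H.inv_inv] at h5
    rwa [h5] at h4
  have h6 : H.U u x ∈ good H := good_U hx
  have h7 := (good H).sub_mem ((good H).sub_mem h1 h6) h3
  have h8 : H.U u x + (u + u + H.inv x) - H.U u x - H.inv x = z := by rw [← hu]; abel
  rwa [h8] at h7

/-- the third difference vanishes when the parallelogram law holds -/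
theorem third_zero {G : Type*} [AddCommGroup G] (h2 : ∀ g : G, g + g = 0 → g = 0) (Q : A → G)
    (hQ : ∀ u a, Q (u + a) + Q (u - a) = Q u + Q u + (Q a + Q a)) (x y z : A) :
    Q (x + y + z) - Q (x + y) - Q (x + z) - Q (y + z) + Q x + Q y + Q z = 0 := by
  apply h2
  have e1 := hQ (x + y) z
  have e2 := hQ x (y - z)
  have e3 := hQ (x + z) y
  have e4 := hQ y z
  have a1 : x + (y - z) = x + y - z := by abel
  have a2 : x - (y - z) = x + z - y := by abel
  have a3 : x + z + y = x + y + z := by abel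
  rw [a1, a2] at e2
  rw [a3] at e3
  have f1 : Q (x + y + z) = Q (x + y) + Q (x + y) + (Q z + Q z) - Q (x + y - z) :=
    eq_sub_of_add_eq e1
  have f3 : Q (x + y + z) = Q (x + z) + Q (x + z) + (Q y + Q y) - Q (x + z - y) := by
    rw [← e3]; abel
  have f4 : Q (y - z) = Q y + Q y + (Q z + Q z) - Q (y + z) := by rw [← e4]; abel
  rw [f4] at e2
  have f2 : Q (x + y - z) = Q x + Q x + (Q y + Q y + (Q z + Q z) - Q (y + z) +
    (Q y + Q y + (Q z + Q z) - Q (y + z))) - Q (x + z - y) := eq_sub_of_add_eq e2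
  rw [show Q (x + y + z) - Q (x + y) - Q (x + z) - Q (y + z) + Q x + Q y + Q z +
    (Q (x + y + z) - Q (x + y) - Q (x + z) - Q (y + z) + Q x + Q y + Q z) =
    Q (x + y + z) + Q (x + y + z) - Q (x + y) - Q (x + z) - Q (y + z) + Q x + Q y + Q z
    - Q (x + y) - Q (x + z) - Q (y + z) + Q x + Q y + Q z by abel]
  nth_rw 1 [f1]
  rw [f3, f2]
  abel

end Good

/-- A Hua system with one nonzero argument for which the Hua maps are quadratic comes from a
quadratic Jordan division ring. -/
theorem jordan_of_good {A : Type} [AddCommGroup A]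
    (hA : ∀ (n : ℕ) (a : A), n ≠ 0 → n • a = 0 → a = 0)
    (j : A → Option A → Option A) {J : A → A → A} (hJ : JSys J)
    (hjJ : ∀ a b : A, a ≠ 0 → b ≠ 0 → j a (some b) = some (J a b)) {e : A} (he : e ≠ 0)
    {x : A} (hx0 : x ≠ 0) (hx : x ∈ good (toHS hJ e he)) : FromJordan j := by
  have h2 : ∀ a : A, a + a = 0 → a = 0 := by
    intro a ha
    apply hA 2 a (by norm_num)
    rw [two_nsmul]; exact ha
  have h3 : ∀ a : A, a + a + a = 0 → a = 0 := by
    intro a ha
    apply hA 3 a (by norm_num)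
    rw [← ha]
    abel
  have hdiv : ∀ a : A, ∃ b : A, b + b = a := by
    intro a
    obtain ⟨b, hb⟩ := (toHS hJ e he).divisible hA 2 a (by norm_num)
    exact ⟨b, by rw [← hb, two_nsmul]⟩
  have hT : ∀ e', e' ≠ 0 → ∀ x y z c, T3 J e' x y z c = 0 := by
    intro e' he' x' y z c
    have hc : ∀ w, H J e' w c = H J e w (J e (J e' c)) := by
      intro w
      by_cases hw : w = 0
      · rw [hw, H_zero_left, H_zero_left]
      · rw [H_of_ne hw, H_of_ne hw, hJ.inv e _ he]
    have hg := good_top (E1_toHS hJ he) hdiv hx0 hx (J e (J e' c))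
    unfold T3
    rw [hc, hc, hc, hc, hc, hc, hc]
    exact third_zero h2 (fun w => H J e w (J e (J e' c))) (fun u a => hg u a) x' y z
  exact jordan_of_T3 h2 h3 j hJ hjJ hT he

section Closed

variable {A : Type} [AddCommGroup A] (H : HS A)

/-- The subgroup generated by the inverses of the elements outside `R`. -/
def rho (R : AddSubgroup A) : AddSubgroup A :=
  AddSubgroup.closure {z | ∃ y, y ∉ R ∧ H.inv y = z}

variable {H}

theorem rho_le {P R : AddSubgroup A} (h : ∀ v, v ∉ R → H.inv v ∈ P) : rho H R ≤ P := by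
  rw [rho, AddSubgroup.closure_le]
  rintro _ ⟨y, hy, rfl⟩
  exact h y hy

theorem mem_rho {R : AddSubgroup A} {v : A} (hv : v ∉ R) : H.inv v ∈ rho H R :=
  AddSubgroup.subset_closure ⟨v, hv, rfl⟩

theorem rho_symm {P R : AddSubgroup A} (h : rho H R ≤ P) : rho H P ≤ R := by
  apply rho_le
  intro v hv
  by_contra hne
  apply hv
  have h1 := h (mem_rho (H := H) hne)
  rwa [H.inv_inv] at h1

theorem rho_anti {R R' : AddSubgroup A} (h : R ≤ R') : rho H R' ≤ rho H R :=
  rho_le fun v hv => mem_rho fun hv' => hv (h hv')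

theorem rho_rho_rho (R : AddSubgroup A) : rho H (rho H (rho H R)) = rho H R := by
  apply le_antisymm
  · exact rho_symm (rho_symm (rho_symm le_rfl))
  · exact rho_anti (rho_symm le_rfl)

theorem rho_pure (S : ∀ (n : ℕ) (a : A), n ≠ 0 → n • H.inv (n • a) = H.inv a)
    (hA : ∀ (n : ℕ) (a : A), n ≠ 0 → n • a = 0 → a = 0)
    {R : AddSubgroup A} (hR : IsPure R) : IsPure (rho H R) := by
  intro n a hn ha
  have hdiv : ∀ z, z ∈ rho H R → ∃ w, w ∈ rho H R ∧ n • w = z := by
    intro z hz
    unfold rho at hz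
    induction hz using AddSubgroup.closure_induction with
    | mem z hz =>
      obtain ⟨y, hy, rfl⟩ := hz
      exact ⟨H.inv (n • y), mem_rho fun h => hy (hR n y hn h), S n y hn⟩
    | zero => exact ⟨0, (rho H R).zero_mem, smul_zero _⟩
    | add z w _ _ hz hw =>
      obtain ⟨z', hz', e1⟩ := hz
      obtain ⟨w', hw', e2⟩ := hw
      exact ⟨z' + w', (rho H R).add_mem hz' hw', by rw [smul_add, e1, e2]⟩
    | neg z _ hz =>
      obtain ⟨z', hz', e1⟩ := hz
      exact ⟨-z', (rho H R).neg_mem hz', by rw [smul_neg, e1]⟩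
  obtain ⟨w, hw, e⟩ := hdiv _ ha
  have h0 : a = w := by
    apply sub_eq_zero.mp
    apply hA n _ hn
    rw [smul_sub, e, sub_self]
  rwa [h0]

end Closed

/-- The closed pairs given by a Hua system which does not come from a quadratic Jordan division
ring. -/
theorem exists_closed_pair (A : Type) [AddCommGroup A]
    (hA : ∀ (n : ℕ) (a : A), n ≠ 0 → n • a = 0 → a = 0)
    (j : A → Option A → Option A) {J : A → A → A} (hJ : JSys J)
    (hjJ : ∀ a b : A, a ≠ 0 → b ≠ 0 → j a (some b) = some (J a b)) {e : A} (he : e ≠ 0)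
    {x : A} (hx0 : x ≠ 0) (hn : ¬ FromJordan j) :
    ∃ P R : AddSubgroup A, P ≠ ⊤ ∧ x ∉ R ∧ IsPure P ∧ IsPure R ∧
      P = rho (toHS hJ e he) R ∧ R = rho (toHS hJ e he) P := by
  set H := toHS hJ e he with hH
  letI : Module ℚ A := ratModule hA (fun n a hn => H.divisible hA n a hn)
  have S : H.Scal ℚ := H.ratScal hA
  have hE : E1 H := E1_toHS hJ he
  have hpair : ∃ (P R : Submodule ℚ A) (a : A), a ∉ P ∧ x ∉ R ∧ ∀ v, v ∉ R → H.inv v ∈ P := by
    by_contra hno
    apply hn
    refine jordan_of_good hA j hJ hjJ he hx0 ?_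
    show x ∈ good H
    intro u a
    have key : ∀ a' u' : A, a' ≠ 0 → u' ≠ 0 → H.U (u' + a') x + H.U (u' - a') x =
        (2 : ℚ) • H.U u' x + (2 : ℚ) • H.U a' x := by
      intro a' u' ha' hu'
      by_cases hall : ∀ n : ℕ, (fwdDiff a')^[n] (fld H x) ≠ 0
      · exfalso
        apply hno
        obtain ⟨P, R, h1, h2, h3⟩ := exists_pair hE S a' x hall
        exact ⟨P, R, a', h1, h2, h3⟩
      · push_neg at hall
        obtain ⟨n, hn⟩ := hall
        exact parallel S ha' hu' hn
    by_cases ha : a = 0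
    · subst ha
      rw [add_zero, sub_zero, H.U_zero]
      simp
    by_cases hu : u = 0
    · subst hu
      rw [zero_add, zero_sub, H.U_neg, H.U_zero]
      simp
    rw [key a u ha hu, two_smul, two_smul]
  obtain ⟨P, R, a, ha, hx, hPR⟩ := hpair
  have hpure : ∀ Q : Submodule ℚ A, IsPure Q.toAddSubgroup := by
    intro Q n b hn hb
    have h1 : (n : ℚ)⁻¹ • (n • b) ∈ Q := Q.smul_mem _ hb
    rw [← Nat.cast_smul_eq_nsmul ℚ, smul_smul, inv_mul_cancel₀ (by exact_mod_cast hn),
      one_smul] at h1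
    exact h1
  have hle : rho H R.toAddSubgroup ≤ P.toAddSubgroup := rho_le hPR
  have S' : ∀ (n : ℕ) (a : A), n ≠ 0 → n • H.inv (n • a) = H.inv a :=
    fun n a hn => H.smul_inv_smul hA n a hn
  have p1 : IsPure (rho H R.toAddSubgroup) := rho_pure S' hA (hpure R)
  have p2 : IsPure (rho H (rho H R.toAddSubgroup)) := rho_pure S' hA p1
  refine ⟨rho H R.toAddSubgroup, rho H (rho H R.toAddSubgroup), ?_, ?_, p1, p2, ?_, rfl⟩
  · intro h
    apply ha
    apply hle
    rw [h]
    exact AddSubgroup.mem_top a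
  · intro h
    exact hx (rho_symm (H := H) le_rfl h)
  · exact (rho_rho_rho _).symm

end Pool.Agent.HuaPair25
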