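import Mathlib
import Pool.Agent.HuaPair25.Closed

/-!
Closed pairs and algebraic elements.
-/

set_option autoImplicit false

namespace Pool.Agent.HuaPair25

open Pool.Agent.HuaTop84 Pool.Agent.HuaVal Pool.Agent.HuaOne84

variable {A : Type} [AddCommGroup A]

/-- The difference formula of a Hua system. -/
def E2 (H : HS A) : Prop := ∀ x w : A, x ≠ 0 → w ≠ 0 → x + w ≠ 0 →
  H.inv x - H.inv (x + w) = H.inv (x + H.U x (H.inv w))

theorem E2_toHS {J : A → A → A} (hJ : JSys J) {e : A} (he : e ≠ 0) : E2 (toHS hJ e he) :=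
  fun _ _ hx hw hxw => i_sub_i hJ he hx hw hxw

/-- `a ∉ P` implies `U_a⁻¹ P ⊆ R`. -/
theorem shrink {H : HS A} (hE : E2 H) {P R : AddSubgroup A} (hP : P = rho H R) (hR : R = rho H P)
    {a b : A} (ha : a ∉ P) (hb : b ∈ P) : H.U (H.inv a) b ∈ R := by
  have ha0 : a ≠ 0 := fun h => ha (h ▸ P.zero_mem)
  have hia : H.inv a ∈ R := by rw [hR]; exact mem_rho ha
  have key : ∀ y, y ∉ R → H.U (H.inv a) (H.inv y) ∈ R := by
    intro y hy
    have hy0 : y ≠ 0 := fun h => hy (h ▸ R.zero_mem)
    have hay : H.inv a + y ∉ R := fun h => hy (by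
      have := R.sub_mem h hia
      rwa [add_sub_cancel_left] at this)
    have hay0 : H.inv a + y ≠ 0 := fun h => hay (h ▸ R.zero_mem)
    have h1 := hE (H.inv a) y (H.inv_ne a ha0) hy0 hay0
    rw [H.inv_inv] at h1
    have h2 : H.inv (H.inv a + y) ∈ P := by
      have : H.inv (H.inv a + y) ∈ rho H R := mem_rho hay
      rwa [← hP] at this
    have h3 : a - H.inv (H.inv a + y) ∉ P := fun h => ha (by
      have := P.add_mem h h2
      rwa [sub_add_cancel] at this)
    have h4 : H.inv (a - H.inv (H.inv a + y)) ∈ R := by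
      have : H.inv (a - H.inv (H.inv a + y)) ∈ rho H P := mem_rho h3
      rwa [← hR] at this
    rw [h1, H.inv_inv] at h4
    have := R.sub_mem h4 hia
    rwa [add_sub_cancel_left] at this
  rw [hP] at hb
  unfold rho at hb
  induction hb using AddSubgroup.closure_induction with
  | mem z hz =>
    obtain ⟨y, hy, rfl⟩ := hz
    exact key y hy
  | zero => rw [map_zero]; exact R.zero_mem
  | add z w _ _ hz hw => rw [map_add]; exact R.add_mem hz hw
  | neg z _ hz => rw [map_neg]; exact R.neg_mem hz

/-- `a ∉ P`, `y ∉ R` imply `U_a y ∉ P`. -/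
theorem expand {H : HS A} (hE : E2 H) {P R : AddSubgroup A} (hP : P = rho H R) (hR : R = rho H P)
    {a y : A} (ha : a ∉ P) (hy : y ∉ R) : H.U a y ∉ P := by
  intro h
  have ha0 : a ≠ 0 := fun h => ha (h ▸ P.zero_mem)
  have := shrink hE hP hR ha h
  rw [H.U_inv_left a _ ha0] at this
  exact hy this

/-- In a closed pair with the unit outside `R`, the elements outside `P` are transcendental. -/
theorem alg_mem {H : HS A} (hE : E2 H) (hA : ∀ (n : ℕ) (a : A), n ≠ 0 → n • a = 0 → a = 0)
    {P R : AddSubgroup A} (hP : P = rho H R) (hR : R = rho H P)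
    (hPp : IsPure P) (hRp : IsPure R) (h1 : H.one ∉ R) {L : Type} [Field L] (φ : L →+ A)
    (hφ1 : φ 1 = H.one) (hφi : ∀ u : L, φ u⁻¹ = H.inv (φ u))
    (hφ : ∀ u v : L, φ (u * u * v) = H.U (φ u) (φ v)) (u : L) (p : Polynomial ℤ) (hp : p ≠ 0)
    (hpu : Polynomial.aeval u p = 0) : φ u ∈ P := by
  by_contra hu
  have hRP : R ≤ P := by
    intro r hr
    have h2 := shrink hE hR hP h1 hr
    rwa [H.inv_one, H.U_one] at h2
  have h1P : H.one ∈ P := by
    have h2 : H.inv H.one ∈ rho H R := mem_rho h1
    rw [H.inv_one, ← hP] at h2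
    exact h2
  have hu0 : u ≠ 0 := by
    rintro rfl
    apply hu
    rw [map_zero]
    exact P.zero_mem
  -- powers
  have hpow : ∀ k : ℕ, 1 ≤ k → φ (u ^ k) ∉ P := by
    intro k
    induction k using Nat.strong_induction_on with
    | _ k ih =>
      intro hk
      rcases Nat.lt_or_ge k 3 with h3 | h3
      · interval_cases k
        · rwa [pow_one]
        · have h4 := hφ u 1
          rw [mul_one, hφ1] at h4
          rw [pow_two, h4]
          exact expand hE hP hR hu h1
      · obtain ⟨m, rfl⟩ := Nat.exists_eq_add_of_le h3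
        have h4 := ih (m + 1) (by omega) (by omega)
        have h5 : φ (u ^ (3 + m)) = H.U (φ u) (φ (u ^ (m + 1))) := by
          rw [← hφ]
          congr 1
          ring
        rw [h5]
        exact expand hE hP hR hu fun h => h4 (hRP h)
  have hinvpow : ∀ k : ℕ, 1 ≤ k → φ ((u ^ k)⁻¹) ∈ R := by
    intro k hk
    rw [hφi, hR]
    exact mem_rho (hpow k hk)
  have hzs : ∀ (Q : AddSubgroup A), IsPure Q → ∀ (c : ℤ) (a : A), c ≠ 0 → c • a ∈ Q → a ∈ Q := by
    intro Q hQ c a hc h
    have h2 : c.natAbs • a ∈ Q := by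
      rcases Int.natAbs_eq c with h3 | h3
      · rw [h3, natCast_zsmul] at h
        exact h
      · rw [h3, neg_smul, natCast_zsmul] at h
        exact neg_mem_iff.mp h
    exact hQ _ _ (Int.natAbs_ne_zero.mpr hc) h2
  -- the value of a polynomial, divided by a power of `u`
  have hlow : ∀ (d : ℕ) (c : ℕ → ℤ), φ (∑ i ∈ Finset.range d, (c i : L) * (u ^ (d - i))⁻¹) ∈ R := by
    intro d c
    rw [map_sum]
    apply R.sum_mem
    intro i hi
    rw [← zsmul_eq_mul, map_zsmul]
    exact R.zsmul_mem (hinvpow _ (by have := Finset.mem_range.mp hi; omega)) _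
  have hL0 : ∀ c : ℤ, c ≠ 0 → c • H.one ≠ 0 := by
    intro c hc h
    apply h1
    have h2 : (0 : A) ∈ R := R.zero_mem
    rw [← h] at h2
    exact hzs R hRp c _ hc h2
  set d := p.natDegree with hd
  set c := p.leadingCoeff with hc
  have hc0 : c ≠ 0 := by rw [hc]; exact Polynomial.leadingCoeff_ne_zero.mpr hp
  have hexp : (Polynomial.aeval u p : L) = (∑ i ∈ Finset.range d, (p.coeff i : L) * u ^ i) +
      (c : L) * u ^ d := by
    rw [Polynomial.aeval_eq_sum_range, Finset.sum_range_succ]
    simp only [zsmul_eq_mul]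
    rfl
  rcases Nat.even_or_odd' d with ⟨m, hm | hm⟩
  · by_cases hm0 : m = 0
    · -- constant polynomial
      have hd0 : d = 0 := by omega
      rw [hexp, hd0] at hpu
      simp only [Finset.range_zero, Finset.sum_empty, zero_add, pow_zero, mul_one] at hpu
      apply hL0 c hc0
      rw [← hφ1, ← map_zsmul, zsmul_eq_mul, mul_one, hpu, map_zero]
    · have h2 : u ^ m * u ^ m * ((c : L) +
          ∑ i ∈ Finset.range d, (p.coeff i : L) * (u ^ (d - i))⁻¹) = 0 := by
        rw [← hpu, hexp, ← pow_add, ← two_mul, ← hm, mul_add, Finset.mul_sum, add_comm]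
        congr 1
        · apply Finset.sum_congr rfl
          intro i hi
          have hi' := Finset.mem_range.mp hi
          have h3 : u ^ d = u ^ i * u ^ (d - i) := by rw [← pow_add]; congr 1; omega
          rw [h3]
          have h4 : u ^ (d - i) ≠ 0 := pow_ne_zero _ hu0
          field_simp
        · ring
      have h3 := hφ (u ^ m) ((c : L) + ∑ i ∈ Finset.range d, (p.coeff i : L) * (u ^ (d - i))⁻¹)
      rw [h2, map_zero] at h3
      have h4 : φ ((c : L) + ∑ i ∈ Finset.range d, (p.coeff i : L) * (u ^ (d - i))⁻¹) ∉ R := by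
        intro h
        rw [map_add] at h
        have h5 := R.sub_mem h (hlow d fun i => p.coeff i)
        rw [add_sub_cancel_right, ← mul_one (c : L), ← zsmul_eq_mul, map_zsmul, hφ1] at h5
        exact h1 (hzs R hRp c _ hc0 h5)
      apply expand hE hP hR (hpow m (by omega)) h4
      rw [← h3]
      exact P.zero_mem
  · -- odd degree
    have h2 : u ^ m * u ^ m * ((c : L) * u + ((p.coeff (2 * m) : L) +
        ∑ i ∈ Finset.range (2 * m), (p.coeff i : L) * (u ^ (2 * m - i))⁻¹)) = 0 := by
      rw [← hpu, hexp, hm, Finset.sum_range_succ, ← pow_add, ← two_mul, mul_add, mul_add,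
        Finset.mul_sum]
      rw [show u ^ (2 * m) * ((c : L) * u) = (c : L) * u ^ (2 * m + 1) by ring, add_comm]
      congr 1
      rw [add_comm]
      congr 1
      · apply Finset.sum_congr rfl
        intro i hi
        have hi' := Finset.mem_range.mp hi
        have h3 : u ^ (2 * m) = u ^ i * u ^ (2 * m - i) := by rw [← pow_add]; congr 1; omega
        rw [h3]
        have h4 : u ^ (2 * m - i) ≠ 0 := pow_ne_zero _ hu0
        field_simp
      · ring
    have h4 : φ ((c : L) * u + ((p.coeff (2 * m) : L) +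
        ∑ i ∈ Finset.range (2 * m), (p.coeff i : L) * (u ^ (2 * m - i))⁻¹)) ∉ P := by
      intro h
      rw [map_add, map_add] at h
      have h5 : φ (p.coeff (2 * m) : L) ∈ P := by
        rw [← mul_one (p.coeff (2 * m) : L), ← zsmul_eq_mul, map_zsmul, hφ1]
        exact P.zsmul_mem h1P _
      have h6 := P.sub_mem h (P.add_mem h5 (hRP (hlow (2 * m) fun i => p.coeff i)))
      rw [add_sub_cancel_right, ← zsmul_eq_mul, map_zsmul] at h6
      exact hu (hzs P hPp c _ hc0 h6)
    by_cases hm0 : m = 0
    · apply h4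
      subst hm0
      rw [pow_zero, one_mul, one_mul] at h2
      rw [h2, map_zero]
      exact P.zero_mem
    · have h3 := hφ (u ^ m) ((c : L) * u + ((p.coeff (2 * m) : L) +
        ∑ i ∈ Finset.range (2 * m), (p.coeff i : L) * (u ^ (2 * m - i))⁻¹))
      rw [h2, map_zero] at h3
      apply expand hE hP hR (hpow m (by omega)) (fun h => h4 (hRP h))
      rw [← h3]
      exact P.zero_mem

end Pool.Agent.HuaPair25
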