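import Mathlib
import Pool.Agent.HuaPair25.Alg

/-!
The final statements about closed pairs.
-/

set_option autoImplicit false

namespace Pool.Agent.HuaPair25

open Pool.Agent.HuaTop84 Pool.Agent.HuaVal Pool.Agent.HuaOne84

variable {A : Type} [AddCommGroup A]

/-- Change of the unit in a closed pair. -/
theorem change_unit {J : A → A → A} (hJ : JSys J) {e f : A} (he : e ≠ 0) (hf : f ≠ 0)
    {P R : AddSubgroup A} (hP : P = rho (toHS hJ e he) R) (hR : R = rho (toHS hJ e he) P) :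
    P = rho (toHS hJ f hf) (R.map ((toHS hJ e he).U f)) ∧
    R.map ((toHS hJ e he).U f) = rho (toHS hJ f hf) P := by
  have hU : ∀ y, (toHS hJ e he).U f y = J f (J e y) := fun y => H_of_ne hf
  have hinj : ∀ y z, J f (J e y) = J f (J e z) → y = z := by
    intro y z h
    have h1 := congrArg (fun w => J e (J f w)) h
    simpa only [hJ.inv f _ hf, hJ.inv e _ he] using h1
  have hmem : ∀ y, (toHS hJ e he).U f y ∈ R.map ((toHS hJ e he).U f) ↔ y ∈ R := by
    intro y
    constructor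
    · rintro ⟨r, hr, h⟩
      rw [hU, hU] at h
      rw [← hinj _ _ h]
      exact hr
    · intro h
      exact ⟨y, h, rfl⟩
  constructor
  · nth_rw 1 [hP]
    unfold rho
    congr 1
    ext z
    constructor
    · rintro ⟨y, hy, rfl⟩
      refine ⟨(toHS hJ e he).U f y, fun h => hy ((hmem y).mp h), ?_⟩
      show J f ((toHS hJ e he).U f y) = J e y
      rw [hU, hJ.inv f _ hf]
    · rintro ⟨y, hy, rfl⟩
      refine ⟨J e (J f y), ?_, ?_⟩
      · intro h
        apply hy
        rw [← hmem, hU, hJ.inv e _ he, hJ.inv f _ hf] at h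
        exact h
      · show J e (J e (J f y)) = J f y
        rw [hJ.inv e _ he]
  · nth_rw 1 [hR]
    unfold rho
    rw [AddMonoidHom.map_closure]
    congr 1
    ext z
    constructor
    · rintro ⟨w, ⟨y, hy, rfl⟩, rfl⟩
      refine ⟨y, hy, ?_⟩
      show J f y = (toHS hJ e he).U f (J e y)
      rw [hU, hJ.inv e _ he]
    · rintro ⟨y, hy, rfl⟩
      refine ⟨J e y, ⟨y, hy, rfl⟩, ?_⟩
      show (toHS hJ e he).U f (J e y) = J f y
      rw [hU, hJ.inv e _ he]

theorem alg_mem' (hA : ∀ (n : ℕ) (a : A), n ≠ 0 → n • a = 0 → a = 0)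
    (j : A → Option A → Option A) {J : A → A → A} (hJ : JSys J)
    (hjJ : ∀ a b : A, a ≠ 0 → b ≠ 0 → j a (some b) = some (J a b)) {e : A} (he : e ≠ 0)
    {P R : AddSubgroup A} (hP : P = rho (toHS hJ e he) R) (hR : R = rho (toHS hJ e he) P)
    (hPp : IsPure P) {f : A} (hf : f ∉ R) (a : A)
    (ha : IsAlgOver j (J e f) a) : a ∈ P := by
  have hf0 : f ≠ 0 := fun h => hf (h ▸ R.zero_mem)
  have hg : J e f ≠ 0 := J_ne_zero hJ he hf0
  obtain ⟨hP', hR'⟩ := change_unit hJ he hg hP hR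
  obtain ⟨L, iF, φ, hinj, hφ1, hφ, u, hu, p, hp, hpu⟩ := ha
  have S' : ∀ (n : ℕ) (a : A), n ≠ 0 → n • (toHS hJ (J e f) hg).inv (n • a) =
      (toHS hJ (J e f) hg).inv a :=
    fun n a hn => (toHS hJ (J e f) hg).smul_inv_smul hA n a hn
  have hpure' : IsPure (R.map ((toHS hJ e he).U (J e f))) := by
    rw [hR']
    exact rho_pure S' hA hPp
  have hne : ∀ u : L, u ≠ 0 → φ u ≠ 0 := fun u hu h => hu (hinj (by rw [h, map_zero]))
  have hone : (toHS hJ (J e f) hg).one ∉ R.map ((toHS hJ e he).U (J e f)) := by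
    rintro ⟨r, hr, h⟩
    have h1 : (toHS hJ e he).U (J e f) r = J (J e f) (J e r) := H_of_ne hg
    have h2 : J (J e f) (J e r) = J e f := h1.symm.trans h
    have h3 := congrArg (J (J e f)) h2
    rw [hJ.inv _ _ hg, hJ.self _ hg] at h3
    have h4 := congrArg (J e) h3
    rw [hJ.inv _ _ he, hJ.inv _ _ he] at h4
    exact hf (h4 ▸ hr)
  have hφi : ∀ u : L, φ u⁻¹ = (toHS hJ (J e f) hg).inv (φ u) := by
    intro u
    by_cases hu : u = 0
    · subst hu
      rw [inv_zero, map_zero]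
      exact ((toHS hJ (J e f) hg).inv_zero).symm
    · have h1 := hφ 1 u one_ne_zero hu
      rw [hφ1, hjJ _ _ hg (hne u hu), one_mul, one_mul] at h1
      exact (Option.some.inj h1).symm
  rw [← hu]
  refine alg_mem (H := toHS hJ (J e f) hg) (E2_toHS hJ hg) hA hP' hR' hPp hpure' hone φ hφ1 hφi
    ?_ u p hp hpu
  intro v w
  by_cases hv : v = 0
  · subst hv
    rw [zero_mul, zero_mul, map_zero, HD.U_zero]
    rfl
  by_cases hw : w = 0
  · subst hw
    rw [mul_zero, map_zero, map_zero]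
  have h2 : (toHS hJ (J e f) hg).U (φ v) (φ w) = J (φ v) (J (J e f) (φ w)) := H_of_ne (hne v hv)
  have h3 : J (J e f) (φ w) = φ w⁻¹ := (hφi w).symm
  rw [h2, h3]
  have h4 := hφ v w⁻¹ hv (inv_ne_zero hw)
  rw [hjJ _ _ (hne v hv) (hne _ (inv_ne_zero hw)), inv_inv] at h4
  exact (Option.some.inj h4).symm

theorem main (A : Type) [AddCommGroup A]
    (hA : ∀ (n : ℕ) (a : A), n ≠ 0 → n • a = 0 → a = 0)
    (j : A → Option A → Option A) (hj : IsHua j) {e x : A} (he : e ≠ 0) (hx : x ≠ 0)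
    (hn : ¬ FromJordan j) :
    ∃ P R : AddSubgroup A, P ≠ ⊤ ∧ x ∉ R ∧ IsPure P ∧ IsPure R ∧ IsClosedPair j e P R ∧
      (∀ a b c : A, a ∉ P → b ∈ P → j e (j a (some b)) = some c → c ∈ R) ∧
      (∀ a b c : A, a ∉ R → b ∈ R → j e (j a (some b)) = some c → c ∈ P) ∧
      (∀ a f g : A, f ∉ R → j e (some f) = some g → IsAlgOver j g a → a ∈ P) := by
  obtain ⟨J, hJ, hjJ⟩ := exists_J hj
  obtain ⟨P, R, h1, h2, h3, h4, h5, h6⟩ := exists_closed_pair A hA j hJ hjJ he hx hn
  have hset : ∀ Q : AddSubgroup A, {z | ∃ y, y ∉ Q ∧ (toHS hJ e he).inv y = z} =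
      {z | ∃ y, y ∉ Q ∧ j e (some y) = some z} := by
    intro Q
    ext z
    constructor
    · rintro ⟨y, hy, rfl⟩
      have hy0 : y ≠ 0 := fun h => hy (h ▸ Q.zero_mem)
      exact ⟨y, hy, hjJ e y he hy0⟩
    · rintro ⟨y, hy, h⟩
      have hy0 : y ≠ 0 := fun h => hy (h ▸ Q.zero_mem)
      rw [hjJ e y he hy0] at h
      exact ⟨y, hy, Option.some.inj h⟩
  have hsh : ∀ {P R : AddSubgroup A}, P = rho (toHS hJ e he) R → R = rho (toHS hJ e he) P →
      ∀ a b c : A, a ∉ P → b ∈ P → j e (j a (some b)) = some c → c ∈ R := by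
    intro P R hP hR a b c ha hb hc
    have ha0 : a ≠ 0 := fun h => ha (h ▸ P.zero_mem)
    have h7 := shrink (E2_toHS hJ he) hP hR ha hb
    by_cases hb0 : b = 0
    · subst hb0
      rw [(hj.hs1 a ha0).2.2.2] at hc
      have h8 := (hj.hs1 e he).1 (some 0)
      rw [(hj.hs1 e he).2.2.2] at h8
      rw [h8] at hc
      rw [← Option.some.inj hc]
      exact R.zero_mem
    · have h9 : (toHS hJ e he).U ((toHS hJ e he).inv a) b = J e (J a b) := by
        have hia : J e a ≠ 0 := J_ne_zero hJ he ha0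
        have h10 : (toHS hJ e he).U (J e a) b = J (J e a) (J e b) := H_of_ne hia
        show (toHS hJ e he).U (J e a) b = _
        rw [h10, hJ.comp e a _ he ha0, hJ.inv e _ he]
      rw [h9] at h7
      rw [hjJ a b ha0 hb0, hjJ e _ he (J_ne_zero hJ ha0 hb0)] at hc
      rw [← Option.some.inj hc]
      exact h7
  refine ⟨P, R, h1, h2, h3, h4, ?_, hsh h5 h6, hsh h6 h5, ?_⟩
  · unfold IsClosedPair
    rw [← hset, ← hset]
    exact ⟨h5, h6⟩
  · intro a f g hf hg ha
    have hf0 : f ≠ 0 := fun h => hf (h ▸ R.zero_mem)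
    rw [hjJ e f he hf0] at hg
    have := Option.some.inj hg
    subst this
    exact alg_mem' hA j hJ hjJ he h5 h6 h3 hf a ha

end Pool.Agent.HuaPair25
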